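import Pool.Agent.Helper42.SQ.GABs
import Pool.Agent.Helper34.S7.FBm

/-!
# SQ, stage 7, uniform form: the theorem for the germs of a sequence of points of bounded degree, with forms which move
with the point and the constant `1 / cnr n r`
-/

set_option autoImplicit false

namespace Pool.Agent.SQ

open NumberField Filter Module MvPolynomial
open Pool.Agent.Helper64.Vojta (Pl nv sn above)
open Pool.Agent.V2
open Pool.Agent.Chart (fld dg crd val hgt lam)

universe u

section

variable {k : Type u} [Field k] [NumberField k] {G : Type} [Group G] [Fintype G] {D : SqG k G} (F : GFG D)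

private theorem rp_zero34 : ∀ᶠ a in (D.U : Filter ℕ), F.rp 0 a = 0 := by
  filter_upwards [F.rp_alg 0] with a ha
  rw [map_zero, map_zero] at ha
  exact ha

private theorem rp_sum34 {ι : Type} (s : Finset ι) (f : ι → F.K) :
    ∀ᶠ a in (D.U : Filter ℕ), F.rp (∑ j ∈ s, f j) a = ∑ j ∈ s, F.rp (f j) a := by
  classical
  induction s using Finset.induction_on with
  | empty =>
    filter_upwards [rp_zero34 F] with a ha
    rw [Finset.sum_empty, Finset.sum_empty, ha]
  | insert i s hi ih =>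
    filter_upwards [ih, F.rp_add (f i) (∑ j ∈ s, f j)] with a h1 h2
    rw [Finset.sum_insert hi, Finset.sum_insert hi, h2, h1]

variable {n : ℕ} (x : ∀ a, Fin (n + 1) → D.L a) (hx : Ptg D x)
  (ξ : Fin (n + 1) → F.K) (hξ : ∀ j, ∀ᶠ n in (D.U : Filter ℕ), F.rp (ξ j) n = x n j)

private theorem fixms34 {H : Subgroup G} (hξ : ∀ j, ∀ᶠ n in (D.U : Filter ℕ), F.rp (ξ j) n = x n j)
    (hxH : ∀ n, ∀ h ∈ H, ∀ j, D.s n h (x n j) = x n j) :
    ∀ h ∈ H, ∀ z ∈ Submodule.span (slk F) (Set.range ξ), ss F h z = z := by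
  intro h hh z hz
  induction hz using Submodule.span_induction with
  | mem z hz =>
    obtain ⟨j, rfl⟩ := hz
    refine F.rp_inj _ _ ?_
    filter_upwards [hξ j, F.rp_s h (ξ j)] with n h1 h2
    show F.rp (F.s h (ξ j)) n = F.rp (ξ j) n
    rw [h2, h1, hxH n h hh j]
  | zero => exact map_zero _
  | add a b _ _ ha hb => rw [map_add, ha, hb]
  | smul r a _ ha => rw [map_smul, ha]

private theorem cgms34 {H : Subgroup G} (hxH : ∀ n, ∀ h ∈ H, ∀ j, D.s n h (x n j) = x n j) (v : Pl k) (g h : G)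
    (hh : h ∈ H) : cg D x v (g * h) = cg D x v g := by
  have h1 : ∀ n, (fun j => D.s n (g * h) (x n j)) = fun j => D.s n g (x n j) := by
    intro n
    funext j
    rw [map_mul]
    show D.s n g (D.s n h (x n j)) = _
    rw [hxH n h hh j]
  unfold cg
  simp only [h1]

private theorem prod_bot34 {k K : Type u} [Field k] [Field K] [Algebra k K] [Fintype (G ⧸ (⊥ : Subgroup G))]
    (V : G → Submodule k K) : ∏ g, V g = ∏ q : G ⧸ (⊥ : Subgroup G), V q.out := by
  symm
  refine Fintype.prod_bijective (fun q : G ⧸ (⊥ : Subgroup G) => q.out) ⟨?_, ?_⟩ _ _ fun _ => rfl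
  · intro q q' h
    rw [← QuotientGroup.out_eq' q, ← QuotientGroup.out_eq' q']
    exact congrArg _ h
  · intro g
    refine ⟨(g : G ⧸ (⊥ : Subgroup G)), ?_⟩
    have h1 : ((g : G ⧸ (⊥ : Subgroup G)).out : G ⧸ (⊥ : Subgroup G)) = g := QuotientGroup.out_eq' _
    rw [QuotientGroup.eq, Subgroup.mem_bot] at h1
    exact (inv_mul_eq_one.1 h1)

private theorem fr_pos34 {k K : Type u} [Field k] [Field K] [Algebra k K] (V : Submodule k K) [FiniteDimensional k V]
    (h : V ≠ ⊥) : 0 < finrank k V := Module.finrank_pos_iff.2 ((Submodule.nontrivial_iff_ne_bot).2 h)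

include hx hξ

theorem germs_ms {q : ℕ} (l : Fin q → Fin (n + 1) → slk F) (lr : ℕ → Fin q → Fin (n + 1) → k)
    (hlr : ∀ i j, ∀ᶠ a in (D.U : Filter ℕ), F.rp (l i j : F.K) a = algebraMap k (D.L a) (lr a i j))
    (hl : ∀ i, l i ∉ kerS F ξ) (hC : Comb (slk F) (fun i => (kerS F ξ).mkQ (l i)) (finrank (slk F) (kerS F ξ)))
    (P : Finset (Pl k)) (Hs : Subgroup G) (hH : ∀ a, ∀ h ∈ Hs, ∀ j, D.s a h (x a j) = x a j)
    {r : ℕ} (hr : 0 < r) (ρ : Fin r → G) (hρ : ∀ g, ∃! j, (ρ j)⁻¹ * g ∈ Hs) {ε : ℝ} (hε : 0 < ε) :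
    ∀ᶠ a in (D.U : Filter ℕ), ∑ v ∈ P, ∑ g, ∑ i, (Real.log (mxn (D.N a v) fun j => D.s a g (x a j)) -
      Real.log (D.N a v (D.s a g (lvg (lr a i) (x a))))) ≤
      (1 / cnr (n - finrank (slk F) (kerS F ξ)) r + 2 * finrank (slk F) (kerS F ξ) + ε) * D.H a := by
  have : Fintype (G ⧸ (⊥ : Subgroup G)) := Fintype.ofFinite _
  have hxB : ∀ n, ∀ h ∈ (⊥ : Subgroup G), ∀ j, D.s n h (x n j) = x n j := fun n h hh j => by
    rw [Subgroup.mem_bot.1 hh, map_one]
    rfl
  have hrange : LinearMap.range (Fintype.linearCombination (slk F) ξ) = Submodule.span (slk F) (Set.range ξ) :=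
    Fintype.range_linearCombination (slk F) ξ
  have hfix := fixms34 F x ξ hξ hH
  have hprod := omgs_prod F x hx ξ hξ hxB P
  have hsub := sub_ts F x hx ξ hξ hxB P
  have hnn := omgs_nonneg F x hx ξ hξ
  have hat := omgs_attained F x hx ξ hξ
  set V := Submodule.span (slk F) (Set.range ξ) with hV
  have hfd : FiniteDimensional (slk F) V := FiniteDimensional.span_of_finite (slk F) (Set.finite_range ξ)
  let e : ((Fin (n + 1) → slk F) ⧸ kerS F ξ) ≃ₗ[slk F] V :=
    (Fintype.linearCombination (slk F) ξ).quotKerEquivRange ≪≫ₗ LinearEquiv.ofEq _ _ hrange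
  have he : ∀ m, ((e ((kerS F ξ).mkQ m) : V) : F.K) = ∑ j, m j • ξ j := fun m =>
    Fintype.linearCombination_apply (slk F) ξ m
  have hVne : V ≠ ⊥ := by
    intro hbot
    obtain ⟨v, g⟩ : Nonempty (Pl k × G) := ⟨(.inl Classical.ofNonempty, 1)⟩
    obtain ⟨z, h1, h2, -⟩ := hat v g
    rw [hbot, Submodule.mem_bot] at h1
    exact h2 h1
  have hfr : finrank (slk F) V = (n - finrank (slk F) (kerS F ξ)) + 1 := by
    have h1 : finrank (slk F) ((Fin (n + 1) → slk F) ⧸ kerS F ξ) + finrank (slk F) (kerS F ξ) = n + 1 := by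
      rw [Submodule.finrank_quotient_add_finrank, Module.finrank_fin_fun]
    have h2 : 0 < finrank (slk F) V := fr_pos34 V hVne
    rw [e.finrank_eq] at h1
    omega
  have hL : ∀ i, e ((kerS F ξ).mkQ (l i)) ≠ 0 := by
    intro i h
    rw [LinearEquiv.map_eq_zero_iff, Submodule.mkQ_apply, Submodule.Quotient.mk_eq_zero] at h
    exact hl i h
  have key := thmB_m (ss F) (P := P) (fun v => omg F v) (fun v => omg_RVs F v) (fun v g => cg D x v g) V hfr
    (fun v g z hz hz0 => hnn v g z hz hz0)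
    (fun m E hE hEs N z hz hzE => by
      have h1 := hsub m E (by rwa [prod_bot34 (fun g => V.map (ss F g).toLinearMap)] at hE) hEs N z hz hzE
      simpa using h1)
    (fun v g => by
      obtain ⟨z, h1, h2, h3⟩ := hat v g
      exact ⟨z, h1, h2, h3⟩)
    (fun z hz hz0 => by
      have h1 := hprod z hz hz0
      rw [← Finset.sum_coe_sort P (fun v => ∑ g, (omg F v (ss F g z) + cg D x v g))] at h1
      exact h1)
    Hs hfix (fun v g h hh => cgms34 x hH v g h hh) hr ρ hρ
    (fun i => e ((kerS F ξ).mkQ (l i))) hL (Comb.map e hC)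
  have key' : ∑ v ∈ P, ∑ g, ∑ i, (omg F v (F.s g (e ((kerS F ξ).mkQ (l i)) : V)) + cg D x v g) ≤
      1 / cnr (n - finrank (slk F) (kerS F ξ)) r + 2 * finrank (slk F) (kerS F ξ) := by
    rw [← Finset.sum_coe_sort P
      (fun v => ∑ g, ∑ i, (omg F v (F.s g (e ((kerS F ξ).mkQ (l i)) : V)) + cg D x v g))]
    exact key
  have hrp : ∀ i, ∀ᶠ a in (D.U : Filter ℕ), F.rp ((e ((kerS F ξ).mkQ (l i)) : V) : F.K) a = lvg (lr a i) (x a) := by
    intro i
    have h1 : ∀ᶠ a in (D.U : Filter ℕ), ∀ j, F.rp (l i j • ξ j) a = algebraMap k (D.L a) (lr a i j) * x a j := by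
      rw [eventually_all]
      intro j
      filter_upwards [hlr i j, hξ j, F.rp_mul (l i j : F.K) (ξ j)] with a h2 h3 h4
      rw [← h2, ← h3, ← h4]
      rfl
    filter_upwards [h1, rp_sum34 F Finset.univ fun j => l i j • ξ j] with a h2 h3
    rw [he, h3]
    unfold lvg
    exact Finset.sum_congr rfl fun j _ => h2 j
  have hlim : ∀ (v : Pl k) (g : G) (i : Fin q), Tendsto (fun a => (Real.log (mxn (D.N a v) fun j => D.s a g (x a j)) -
      Real.log (D.N a v (D.s a g (lvg (lr a i) (x a))))) / D.H a) (D.U : Filter ℕ)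
      (nhds (omg F v (F.s g (e ((kerS F ξ).mkQ (l i)) : V)) + cg D x v g)) := by
    intro v g i
    have h0 : F.s g ((e ((kerS F ξ).mkQ (l i)) : V) : F.K) ≠ 0 := by
      rw [Ne, EmbeddingLike.map_eq_zero_iff, Submodule.coe_eq_zero]
      exact hL i
    have h1 := (omg_tendsto F v _ h0).add (cg_tendsto x hx v g)
    refine h1.congr' ?_
    filter_upwards [hrp i, F.rp_s g ((e ((kerS F ξ).mkQ (l i)) : V) : F.K)] with a h3 h4
    rw [h4, h3]
    ring
  have hsum : Tendsto (fun a => ∑ v ∈ P, ∑ g, ∑ i, (Real.log (mxn (D.N a v) fun j => D.s a g (x a j)) -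
      Real.log (D.N a v (D.s a g (lvg (lr a i) (x a))))) / D.H a) (D.U : Filter ℕ)
      (nhds (∑ v ∈ P, ∑ g, ∑ i, (omg F v (F.s g (e ((kerS F ξ).mkQ (l i)) : V)) + cg D x v g))) :=
    tendsto_finsetSum _ fun v _ => tendsto_finsetSum _ fun g _ => tendsto_finsetSum _ fun i _ => hlim v g i
  have hlt : ∑ v ∈ P, ∑ g, ∑ i, (omg F v (F.s g (e ((kerS F ξ).mkQ (l i)) : V)) + cg D x v g) <
      1 / cnr (n - finrank (slk F) (kerS F ξ)) r + 2 * finrank (slk F) (kerS F ξ) + ε := by linarith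
  filter_upwards [hsum.eventually (gt_mem_nhds hlt), D.H1.eventually (eventually_gt_atTop 0)] with a h1 h2
  have h3 : ∑ v ∈ P, ∑ g, ∑ i, (Real.log (mxn (D.N a v) fun j => D.s a g (x a j)) -
      Real.log (D.N a v (D.s a g (lvg (lr a i) (x a))))) / D.H a = (∑ v ∈ P, ∑ g, ∑ i, (Real.log (mxn (D.N a v) fun j =>
      D.s a g (x a j)) - Real.log (D.N a v (D.s a g (lvg (lr a i) (x a)))))) / D.H a := by
    simp only [Finset.sum_div]
  rw [h3, div_lt_iff₀ h2] at h1
  exact h1.le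

end

end Pool.Agent.SQ
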